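import Mathlib

/-!
Absolute coefficient sums of formal power series over `ℂ`, and the link with Taylor
coefficients of analytic functions at the origin.
-/

namespace Pool.Agent.Y283

open Finset

/-- Taylor coefficient at the origin. -/
noncomputable def tc (f : ℂ → ℂ) (n : ℕ) : ℂ := iteratedDeriv n f 0 / (n.factorial : ℂ)

/-- Formal Taylor series at the origin. -/
noncomputable def ts (f : ℂ → ℂ) : PowerSeries ℂ := PowerSeries.mk (tc f)

/-- Absolute coefficient sum of a formal power series. -/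
noncomputable def pn (φ : PowerSeries ℂ) : ENNReal := ∑' n, ‖PowerSeries.coeff n φ‖ₑ

lemma pn_ts (f : ℂ → ℂ) : pn (ts f) = ∑' n, ‖tc f n‖ₑ := by
  simp [pn, ts]

lemma pn_add_le (φ ψ : PowerSeries ℂ) : pn (φ + ψ) ≤ pn φ + pn ψ := by
  unfold pn
  rw [← ENNReal.tsum_add]
  refine ENNReal.tsum_le_tsum fun n => ?_
  simpa using enorm_add_le _ _

lemma tsum_antidiag (F : ℕ × ℕ → ENNReal) :
    ∑' n, ∑ p ∈ antidiagonal n, F p = ∑' p, F p := by
  have h := (Finset.HasAntidiagonal.sigmaAntidiagonalEquivProd (A := ℕ)).tsum_eq F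
  rw [← h, ENNReal.tsum_sigma']
  refine tsum_congr fun n => ?_
  rw [tsum_fintype]
  simp only [Finset.HasAntidiagonal.sigmaAntidiagonalEquivProd_apply]
  rw [← Finset.sum_coe_sort]

lemma pn_mul_le (φ ψ : PowerSeries ℂ) : pn (φ * ψ) ≤ pn φ * pn ψ := by
  unfold pn
  calc ∑' n, ‖PowerSeries.coeff n (φ * ψ)‖ₑ
      ≤ ∑' n, ∑ p ∈ antidiagonal n,
          ‖PowerSeries.coeff p.1 φ‖ₑ * ‖PowerSeries.coeff p.2 ψ‖ₑ := by
        refine ENNReal.tsum_le_tsum fun n => ?_
        rw [PowerSeries.coeff_mul]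
        refine (enorm_sum_le _ _).trans (Finset.sum_le_sum fun p _ => ?_)
        rw [enorm_mul]
    _ = ∑' p : ℕ × ℕ, ‖PowerSeries.coeff p.1 φ‖ₑ * ‖PowerSeries.coeff p.2 ψ‖ₑ :=
        tsum_antidiag (fun p => ‖PowerSeries.coeff p.1 φ‖ₑ * ‖PowerSeries.coeff p.2 ψ‖ₑ)
    _ = _ := by
        rw [ENNReal.tsum_prod', ← ENNReal.tsum_mul_right]
        refine tsum_congr fun n => ?_
        simp only
        rw [ENNReal.tsum_mul_left]

lemma pn_C (c : ℂ) : pn (PowerSeries.C c) = ‖c‖ₑ := by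
  unfold pn
  rw [tsum_eq_single 0]
  · simp
  · intro n hn
    simp [PowerSeries.coeff_C, hn]

lemma pn_one : pn (1 : PowerSeries ℂ) = 1 := by
  have := pn_C 1
  simpa using this

lemma pn_C_mul (c : ℂ) (φ : PowerSeries ℂ) : pn (PowerSeries.C c * φ) = ‖c‖ₑ * pn φ := by
  unfold pn
  rw [← ENNReal.tsum_mul_left]
  refine tsum_congr fun n => ?_
  rw [PowerSeries.coeff_C_mul, enorm_mul]

lemma pn_pow_le (φ : PowerSeries ℂ) (k : ℕ) : pn (φ ^ k) ≤ pn φ ^ k := by
  induction k with
  | zero => simp [pn_one]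
  | succ k ih =>
    rw [pow_succ, pow_succ]
    exact (pn_mul_le _ _).trans (mul_le_mul' ih le_rfl)

lemma pn_prod_le {ι : Type*} (s : Finset ι) (φ : ι → PowerSeries ℂ) :
    pn (∏ i ∈ s, φ i) ≤ ∏ i ∈ s, pn (φ i) := by
  classical
  induction s using Finset.induction_on with
  | empty => simp [pn_one]
  | insert a s ha ih =>
    rw [Finset.prod_insert ha, Finset.prod_insert ha]
    exact (pn_mul_le _ _).trans (mul_le_mul' le_rfl ih)

lemma pn_sum_le {ι : Type*} (s : Finset ι) (φ : ι → PowerSeries ℂ) :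
    pn (∑ i ∈ s, φ i) ≤ ∑ i ∈ s, pn (φ i) := by
  classical
  induction s using Finset.induction_on with
  | empty => simp [pn]
  | insert a s ha ih =>
    rw [Finset.sum_insert ha, Finset.sum_insert ha]
    exact (pn_add_le _ _).trans (add_le_add le_rfl ih)

lemma ts_mul {f g : ℂ → ℂ} (hf : AnalyticAt ℂ f 0) (hg : AnalyticAt ℂ g 0) :
    ts (fun z => f z * g z) = ts f * ts g := by
  ext n
  have h1 : iteratedDeriv n (fun z => f z * g z) 0 = _ :=
    iteratedDeriv_mul (n := n) (hf.contDiffAt) (hg.contDiffAt)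
  rw [PowerSeries.coeff_mul]
  simp only [ts, PowerSeries.coeff_mk, tc]
  rw [h1, Finset.sum_div, Finset.Nat.sum_antidiagonal_eq_sum_range_succ
    (f := fun i j => iteratedDeriv i f 0 / (i.factorial : ℂ) *
      (iteratedDeriv j g 0 / (j.factorial : ℂ)))]
  refine Finset.sum_congr rfl fun i hi => ?_
  have hi' : i ≤ n := Nat.lt_succ_iff.mp (Finset.mem_range.mp hi)
  have e := Nat.choose_mul_factorial_mul_factorial hi'
  have e' : (n.choose i : ℂ) * (i.factorial : ℂ) * ((n - i).factorial : ℂ)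
      = (n.factorial : ℂ) := by exact_mod_cast e
  have a1 : (i.factorial : ℂ) ≠ 0 := by exact_mod_cast i.factorial_ne_zero
  have a2 : ((n - i).factorial : ℂ) ≠ 0 := by exact_mod_cast (n - i).factorial_ne_zero
  have a3 : (n.factorial : ℂ) ≠ 0 := by exact_mod_cast n.factorial_ne_zero
  field_simp
  rw [← e']
  ring

lemma ts_congr {f g : ℂ → ℂ} (h : ∀ z ∈ Metric.ball (0 : ℂ) 1, f z = g z) : ts f = ts g := by
  ext n
  simp only [ts, PowerSeries.coeff_mk, tc]
  congr 1
  apply Filter.EventuallyEq.iteratedDeriv_eq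
  filter_upwards [Metric.ball_mem_nhds (0 : ℂ) one_pos] with z hz using h z hz

lemma ts_poly (p : Polynomial ℂ) : ts (fun z => p.eval z) = (p : PowerSeries ℂ) := by
  ext n
  simp only [ts, PowerSeries.coeff_mk, tc, Polynomial.coeff_coe]
  have h : (fun z : ℂ => p.eval z) = fun z => ∑ i ∈ range (p.natDegree + 1), p.coeff i * z ^ i := by
    funext z
    rw [Polynomial.eval_eq_sum_range]
  rw [h, iteratedDeriv_fun_sum (fun i _ => by fun_prop)]
  have a3 : (n.factorial : ℂ) ≠ 0 := by exact_mod_cast n.factorial_ne_zero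
  rw [div_eq_iff a3]
  have h2 : ∀ i ∈ range (p.natDegree + 1), iteratedDeriv n (fun z => p.coeff i * z ^ i) 0
      = if n = i then p.coeff n * n.factorial else 0 := by
    intro i _
    rw [iteratedDeriv_const_mul_field, iteratedDeriv_fun_pow_zero]
    split_ifs with h1
    · subst h1; simp
    · simp
  rw [Finset.sum_congr rfl h2, Finset.sum_ite_eq]
  split_ifs with h3
  · rfl
  · rw [Finset.mem_range, not_lt] at h3
    rw [Polynomial.coeff_eq_zero_of_natDegree_lt (by omega)]
    simp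

end Pool.Agent.Y283
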