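import Pool.Agent.Y283.PSMain

/-!
An abstract form of the lower bound for inverses, used for the circle.
-/

namespace Pool.Agent.Y283

open Finset Polynomial Filter Topology

/-- The test polynomial. -/
noncomputable def testPoly (B L : ℕ) (w : ℕ → ℂ) (δ' : ℝ) : ℂ[X] :=
  C (δ' : ℂ) + C ((1 - δ' : ℝ) : ℂ) * gg B L w

lemma testPoly_eval {δ δ' : ℝ} (h0 : 0 < δ) (h1 : δ < δ') (h3 : δ' < 1) {B : ℕ} {w : ℕ → ℂ}
    (hflat : ∀ z : ℂ, ‖z‖ ≤ 1 → ‖∑ d ∈ range B, w d * z ^ d‖ ≤ δ' - δ) {L : ℕ} (hL : 0 < L)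
    {z : ℂ} (hz : ‖z‖ ≤ 1) : δ ≤ ‖(testPoly B L w δ').eval z‖ := by
  have hδ' : 0 < δ' := h0.trans h1
  have e1 := gg_eval_le hL hflat hz
  rw [testPoly, Polynomial.eval_add, Polynomial.eval_mul, Polynomial.eval_C, Polynomial.eval_C]
  have e2 : ‖((1 - δ' : ℝ) : ℂ) * (gg B L w).eval z‖ ≤ δ' - δ := by
    rw [norm_mul, Complex.norm_real, Real.norm_eq_abs, abs_of_nonneg (by linarith)]
    calc (1 - δ') * ‖(gg B L w).eval z‖ ≤ 1 * ‖(gg B L w).eval z‖ :=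
          mul_le_mul_of_nonneg_right (by linarith) (norm_nonneg _)
      _ ≤ _ := by rw [one_mul]; exact e1
  have e3 : ‖(δ' : ℂ)‖ = δ' := by
    rw [Complex.norm_real, Real.norm_eq_abs, abs_of_pos hδ']
  have e4 := norm_sub_le_norm_add (δ' : ℂ) (((1 - δ' : ℝ) : ℂ) * (gg B L w).eval z)
  linarith

lemma testPoly_pn {δ' : ℝ} (hδ' : 0 < δ') (h3 : δ' < 1) {B : ℕ} {w : ℕ → ℂ} (hB : 0 < B)
    (hw : ∑ d ∈ range B, ‖w d‖ ≤ 1)
    (hs : ∀ c : ℂ, ‖c‖ = 1 → ∃ s : ℕ → ℂ, s 0 = 1 ∧ (∀ d, ‖s d‖ ≤ 1) ∧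
      ∑ d ∈ range B, w d * s d = c) {L : ℕ} (hL : 0 < L) :
    pn (testPoly B L w δ' : PowerSeries ℂ) = 1 := by
  set g : ℂ[X] := gg B L w with hg
  have hpg : pn (g : PowerSeries ℂ) ≤ 1 := pn_gg hL hw
  have hp : testPoly B L w δ' = C (δ' : ℂ) + C ((1 - δ' : ℝ) : ℂ) * g := rfl
  have hcoe : (testPoly B L w δ' : PowerSeries ℂ) = PowerSeries.C (δ' : ℂ)
      + PowerSeries.C ((1 - δ' : ℝ) : ℂ) * (g : PowerSeries ℂ) := by
    rw [hp, Polynomial.coe_add, Polynomial.coe_mul, Polynomial.coe_C, Polynomial.coe_C]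
  refine le_antisymm ?_ ?_
  · rw [hcoe]
    refine (pn_add_le _ _).trans ?_
    rw [pn_C, pn_C_mul]
    have e1 : ‖(δ' : ℂ)‖ₑ = ENNReal.ofReal δ' := by
      rw [← ofReal_norm, Complex.norm_real, Real.norm_eq_abs, abs_of_pos hδ']
    have e2 : ‖((1 - δ' : ℝ) : ℂ)‖ₑ = ENNReal.ofReal (1 - δ') := by
      rw [← ofReal_norm, Complex.norm_real, Real.norm_eq_abs, abs_of_nonneg (by linarith)]
    rw [e1, e2]
    calc _ ≤ ENNReal.ofReal δ' + ENNReal.ofReal (1 - δ') * 1 :=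
          add_le_add le_rfl (mul_le_mul' le_rfl hpg)
      _ = 1 := by
        rw [mul_one, ← ENNReal.ofReal_add hδ'.le (by linarith)]
        simp
  · obtain ⟨s, s0, s1, s2⟩ := hs 1 (by simp)
    have e1 := Lam_gg_pow hB hL s0 s1 hw (c := 1) (by simp) s2 1
    have e2 : qq L 1 = 1 := by
      have : (L : ℝ) ≠ 0 := by exact_mod_cast hL.ne'
      simp [qq, this]
    rw [e2, sub_self, mul_zero, pow_one, one_pow] at e1
    have e3 : Lam (lam B L s) g = 1 := by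
      have := norm_le_zero_iff.mp e1
      rw [sub_eq_zero] at this
      exact this
    have e0 : Lam (lam B L s) (1 : ℂ[X]) = 1 := by
      have := Lam_gg_pow hB hL s0 s1 hw (c := 1) (by simp) s2 0
      have e5 : qq L 0 = 1 := by simp [qq]
      rw [e5, sub_self, mul_zero, pow_zero, pow_zero] at this
      have := norm_le_zero_iff.mp this
      rw [sub_eq_zero] at this
      exact this
    have e4 : Lam (lam B L s) (testPoly B L w δ') = 1 := by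
      have : testPoly B L w δ' = (δ' : ℂ) • (1 : ℂ[X]) + ((1 - δ' : ℝ) : ℂ) • g := by
        rw [hp, Polynomial.smul_eq_C_mul, Polynomial.smul_eq_C_mul, mul_one]
      rw [this, map_add, map_smul, map_smul, e3, e0]
      simp
    have e6 := Lam_le (lam_norm_le B L s1) (testPoly B L w δ')
    rw [e4] at e6
    simpa using e6

lemma neumann_lower {R : Type*} [CommRing R] (N : R → ENNReal)
    (hadd : ∀ x y, N (x + y) ≤ N x + N y) (hmul : ∀ x y, N (x * y) ≤ N x * N y)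
    (hneg : ∀ x, N (-x) = N x) (ι : ℂ[X] →+* R) (hι : ∀ p : ℂ[X], N (ι p) = pn (p : PowerSeries ℂ))
    {δ' : ℝ} (hδ' : 0 < δ') (h3 : δ' < 1)
    {B : ℕ} {w : ℕ → ℂ} (hB : 0 < B) (hw : ∑ d ∈ range B, ‖w d‖ ≤ 1)
    (hs : ∀ c : ℂ, ‖c‖ = 1 → ∃ s : ℕ → ℂ, s 0 = 1 ∧ (∀ d, ‖s d‖ ≤ 1) ∧
      ∑ d ∈ range B, w d * s d = c) {L : ℕ} (hL : 0 < L) (K : ℕ) {b : R}
    (hinv : ι (testPoly B L w δ') * b = 1) {M : ENNReal} (hbM : N b ≤ M) (hfin : M ≠ ⊤) :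
    (1 / δ') * ∑ k ∈ range K, ((1 - δ') / δ') ^ k * (1 - 2 * (1 - qq L k))
      ≤ M.toReal * (1 + ((1 - δ') / δ') ^ K) := by
  set r : ℝ := (1 - δ') / δ' with hr
  have hr0 : 0 ≤ r := div_nonneg (by linarith) hδ'.le
  set g : ℂ[X] := gg B L w with hg
  set p : ℂ[X] := testPoly B L w δ' with hp'
  have hp : p = C (δ' : ℂ) + C ((1 - δ' : ℝ) : ℂ) * g := rfl
  have hδc : (δ' : ℂ) ≠ 0 := by exact_mod_cast hδ'.ne'
  have hpg : pn (g : PowerSeries ℂ) ≤ 1 := pn_gg hL hw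
  set P : ℂ[X] := C ((δ' : ℂ)⁻¹) * ∑ k ∈ range K, (C (-(r : ℂ)) * g) ^ k with hP
  have hpf : p = C (δ' : ℂ) * (1 - C (-(r : ℂ)) * g) := by
    have e : (δ' : ℂ) * -(r : ℂ) = -((1 - δ' : ℝ) : ℂ) := by
      rw [hr]; push_cast; field_simp
    rw [hp, mul_sub, mul_one, ← mul_assoc, ← C_mul, e, C_neg, neg_mul, sub_neg_eq_add]
  have hPp : P * p = 1 - (C (-(r : ℂ)) * g) ^ K := by
    have e1 := mul_neg_geom_sum (C (-(r : ℂ)) * g) K
    rw [hP, hpf, ← e1]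
    have e2 : (C ((δ' : ℂ)⁻¹) : ℂ[X]) * C (δ' : ℂ) = 1 := by
      rw [← C_mul, inv_mul_cancel₀ hδc, C_1]
    calc _ = (C ((δ' : ℂ)⁻¹) * C (δ' : ℂ)) * ((1 - C (-(r : ℂ)) * g)
          * ∑ k ∈ range K, (C (-(r : ℂ)) * g) ^ k) := by ring
      _ = _ := by rw [e2, one_mul]
  have hPb : ι P = b + (-ι ((C (-(r : ℂ)) * g) ^ K)) * b := by
    have e1 : ι P * ι p = 1 - ι ((C (-(r : ℂ)) * g) ^ K) := by
      rw [← map_mul, hPp, map_sub, map_one]
    calc ι P = ι P * (ι p * b) := by rw [hinv, mul_one]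
      _ = (ι P * ι p) * b := by ring
      _ = _ := by rw [e1]; ring
  have hPle : pn (P : PowerSeries ℂ) ≤ (1 + ENNReal.ofReal (r ^ K)) * M := by
    rw [← hι, hPb, add_mul, one_mul]
    refine (hadd _ _).trans (add_le_add hbM ?_)
    refine (hmul _ _).trans (mul_le_mul' ?_ hbM)
    rw [hneg, hι, Polynomial.coe_pow]
    refine (pn_pow_le _ _).trans ?_
    rw [Polynomial.coe_mul, Polynomial.coe_C, pn_C_mul, ENNReal.ofReal_pow hr0]
    have e1 : ‖(-(r : ℂ))‖ₑ = ENNReal.ofReal r := by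
      rw [← ofReal_norm, norm_neg, Complex.norm_real, Real.norm_eq_abs, abs_of_nonneg hr0]
    rw [e1]
    refine pow_le_pow_left₀ (by positivity) ?_ K
    calc _ ≤ ENNReal.ofReal r * 1 := mul_le_mul' le_rfl hpg
      _ = _ := mul_one _
  obtain ⟨s, s0, s1, s2⟩ := hs (-1) (by simp)
  have hLamP : ‖Lam (lam B L s) P - (δ' : ℂ)⁻¹ * ∑ k ∈ range K, (r : ℂ) ^ k‖
      ≤ δ'⁻¹ * ∑ k ∈ range K, r ^ k * (2 * (1 - qq L k)) := by
    have e1 : Lam (lam B L s) P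
        = (δ' : ℂ)⁻¹ * ∑ k ∈ range K, (-(r : ℂ)) ^ k * Lam (lam B L s) (g ^ k) := by
      rw [hP, Polynomial.C_mul', map_smul, map_sum, smul_eq_mul]
      congr 1
      refine Finset.sum_congr rfl fun k _ => ?_
      rw [mul_pow, ← C_pow, Polynomial.C_mul', map_smul, smul_eq_mul]
    rw [e1, ← mul_sub, ← Finset.sum_sub_distrib, norm_mul, norm_inv, Complex.norm_real,
      Real.norm_eq_abs, abs_of_pos hδ']
    refine mul_le_mul_of_nonneg_left ?_ (by positivity)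
    refine (norm_sum_le _ _).trans (Finset.sum_le_sum fun k _ => ?_)
    have e2 := Lam_gg_pow hB hL s0 s1 hw (c := -1) (by simp) s2 k
    have e3 : (-(r : ℂ)) ^ k * Lam (lam B L s) (g ^ k) - (r : ℂ) ^ k
        = (-(r : ℂ)) ^ k * (Lam (lam B L s) (g ^ k) - (-1) ^ k) := by
      rw [mul_sub, ← mul_pow]
      simp
    rw [e3, norm_mul, norm_pow, norm_neg, Complex.norm_real, Real.norm_eq_abs,
      abs_of_nonneg hr0]
    exact mul_le_mul_of_nonneg_left e2 (by positivity)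
  have hfinal : ‖Lam (lam B L s) P‖ ≤ M.toReal * (1 + r ^ K) := by
    have e1 := (Lam_le (lam_norm_le B L s1) P).trans hPle
    have e2 : (1 + ENNReal.ofReal (r ^ K)) * M ≠ ⊤ :=
      ENNReal.mul_ne_top (ENNReal.add_ne_top.mpr ⟨ENNReal.one_ne_top, ENNReal.ofReal_ne_top⟩) hfin
    have e3 := ENNReal.toReal_mono e2 e1
    rw [ENNReal.toReal_mul, ENNReal.toReal_add ENNReal.one_ne_top ENNReal.ofReal_ne_top,
      ENNReal.toReal_ofReal (by positivity), ENNReal.toReal_one, toReal_enorm] at e3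
    linarith [mul_comm M.toReal (1 + r ^ K)]
  have h7 : ‖(δ' : ℂ)⁻¹ * ∑ k ∈ range K, (r : ℂ) ^ k‖ = δ'⁻¹ * ∑ k ∈ range K, r ^ k := by
    have : (δ' : ℂ)⁻¹ * ∑ k ∈ range K, (r : ℂ) ^ k = ((δ'⁻¹ * ∑ k ∈ range K, r ^ k : ℝ) : ℂ) := by
      push_cast; rfl
    rw [this, Complex.norm_real, Real.norm_eq_abs, abs_of_nonneg]
    exact mul_nonneg (by positivity) (Finset.sum_nonneg fun k _ => pow_nonneg hr0 k)
  have h8 : ‖(δ' : ℂ)⁻¹ * ∑ k ∈ range K, (r : ℂ) ^ k‖ ≤ ‖Lam (lam B L s) P‖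
      + ‖Lam (lam B L s) P - (δ' : ℂ)⁻¹ * ∑ k ∈ range K, (r : ℂ) ^ k‖ := by
    have := norm_sub_le (Lam (lam B L s) P)
      (Lam (lam B L s) P - (δ' : ℂ)⁻¹ * ∑ k ∈ range K, (r : ℂ) ^ k)
    rwa [sub_sub_cancel] at this
  rw [h7] at h8
  have h9 : (1 / δ') * ∑ k ∈ range K, r ^ k * (1 - 2 * (1 - qq L k))
      = δ'⁻¹ * ∑ k ∈ range K, r ^ k - δ'⁻¹ * ∑ k ∈ range K, r ^ k * (2 * (1 - qq L k)) := by
    rw [one_div, ← mul_sub, ← Finset.sum_sub_distrib]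
    congr 1
    refine Finset.sum_congr rfl fun k _ => ?_
    ring
  rw [h9]
  linarith

/-- Passing to the limit in the Neumann lower bound. -/
lemma neumann_limit {δ' x : ℝ} (h2 : 1 / 2 < δ') (h3 : δ' < 1)
    (H : ∀ L K : ℕ, 0 < L →
      (1 / δ') * ∑ k ∈ range K, ((1 - δ') / δ') ^ k * (1 - 2 * (1 - qq L k))
        ≤ x * (1 + ((1 - δ') / δ') ^ K)) : 1 / (2 * δ' - 1) ≤ x := by
  have hδ' : 0 < δ' := by linarith
  set r : ℝ := (1 - δ') / δ' with hr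
  have hr0 : 0 ≤ r := div_nonneg (by linarith) hδ'.le
  have hr1 : r < 1 := by
    rw [hr, div_lt_one hδ']; linarith
  have step1 : ∀ K : ℕ, (1 / δ') * ∑ k ∈ range K, r ^ k ≤ x * (1 + r ^ K) := by
    intro K
    have e1 : Tendsto (fun L : ℕ => (1 / δ') * ∑ k ∈ range K, r ^ k * (1 - 2 * (1 - qq L k)))
        atTop (𝓝 ((1 / δ') * ∑ k ∈ range K, r ^ k * (1 - 2 * (1 - 1)))) := by
      refine Tendsto.const_mul _ (tendsto_finsetSum _ fun k _ => Tendsto.const_mul _ ?_)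
      exact tendsto_const_nhds.sub (Tendsto.const_mul _ (tendsto_const_nhds.sub (qq_tendsto k)))
    simp only [sub_self, mul_zero, sub_zero, mul_one] at e1
    refine le_of_tendsto e1 ?_
    filter_upwards [eventually_gt_atTop 0] with L hL
    exact H L K hL
  have t1 : Tendsto (fun K : ℕ => (1 / δ') * ∑ k ∈ range K, r ^ k) atTop
      (𝓝 ((1 / δ') * (1 - r)⁻¹)) :=
    Tendsto.const_mul _ (hasSum_geometric_of_lt_one hr0 hr1).tendsto_sum_nat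
  have t2 : Tendsto (fun K : ℕ => x * (1 + r ^ K)) atTop (𝓝 (x * (1 + 0))) :=
    Tendsto.const_mul _ (tendsto_const_nhds.add (tendsto_pow_atTop_nhds_zero_of_lt_one hr0 hr1))
  have h4 := le_of_tendsto_of_tendsto' t1 t2 step1
  have h5 : (1 / δ') * (1 - r)⁻¹ = 1 / (2 * δ' - 1) := by
    have e1 : 1 - r = (2 * δ' - 1) / δ' := by
      rw [hr]; field_simp; ring
    rw [e1, inv_div]
    field_simp
  rw [h5, add_zero, mul_one] at h4
  exact h4

end Pool.Agent.Y283
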