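import Pool.Agent.Y283.PS

/-!
Digit functionals on polynomials.
-/

namespace Pool.Agent.Y283

open Finset Polynomial

lemma digit_extract {B : ℕ} (hB : 0 < B) (L : ℕ) : ∀ (e : ℕ → ℕ), (∀ l, e l < B) →
    ∀ j, j < L → (∑ l ∈ range L, e l * B ^ l) / B ^ j % B = e j := by
  induction L with
  | zero => intro e _ j hj; omega
  | succ L ih =>
    intro e he j hj
    have h1 : ∑ l ∈ range (L + 1), e l * B ^ l
        = e 0 + B * ∑ l ∈ range L, e (l + 1) * B ^ l := by
      rw [Finset.sum_range_succ', Finset.mul_sum, add_comm]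
      congr 1
      · simp
      · refine Finset.sum_congr rfl fun l _ => ?_
        ring
    rw [h1]
    cases j with
    | zero =>
      rw [pow_zero, Nat.div_one, Nat.add_mul_mod_self_left, Nat.mod_eq_of_lt (he 0)]
    | succ j =>
      rw [pow_succ', ← Nat.div_div_eq_div_mul, Nat.add_mul_div_left _ _ hB,
        Nat.div_eq_of_lt (he 0), zero_add]
      exact ih (fun l => e (l + 1)) (fun l => he _) j (by omega)

/-- The digit weight. -/
noncomputable def lam (B L : ℕ) (s : ℕ → ℂ) (n : ℕ) : ℂ := ∏ l ∈ range L, s (n / B ^ l % B)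

lemma lam_norm_le (B L : ℕ) {s : ℕ → ℂ} (hs : ∀ d, ‖s d‖ ≤ 1) (n : ℕ) : ‖lam B L s n‖ ≤ 1 := by
  unfold lam
  rw [norm_prod]
  exact Finset.prod_le_one (fun _ _ => norm_nonneg _) (fun _ _ => hs _)

lemma lam_digits {B L k : ℕ} (hB : 0 < B) {s : ℕ → ℂ} (h0 : s 0 = 1) (φ : Fin k → Fin L)
    (hφ : Function.Injective φ) (d : Fin k → ℕ) (hd : ∀ i, d i < B) :
    lam B L s (∑ i, d i * B ^ (φ i : ℕ)) = ∏ i, s (d i) := by
  classical
  set e : ℕ → ℕ := fun l => ∑ i : Fin k, if (φ i : ℕ) = l then d i else 0 with he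
  have hinj : ∀ i j : Fin k, (φ i : ℕ) = (φ j : ℕ) → i = j := fun i j h => hφ (Fin.ext h)
  have key : ∀ l, (e l < B) ∧ s (e l) = ∏ i : Fin k, if (φ i : ℕ) = l then s (d i) else 1 := by
    intro l
    by_cases hl : ∃ i0, (φ i0 : ℕ) = l
    · obtain ⟨i0, hi0⟩ := hl
      have h1 : e l = d i0 := by
        rw [he]
        simp only
        rw [Finset.sum_eq_single i0]
        · rw [if_pos hi0]
        · intro b _ hb
          rw [if_neg]
          intro h
          exact hb (hinj _ _ (h.trans hi0.symm))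
        · simp
      have h2 : (∏ i : Fin k, if (φ i : ℕ) = l then s (d i) else 1) = s (d i0) := by
        rw [Finset.prod_eq_single i0]
        · rw [if_pos hi0]
        · intro b _ hb
          rw [if_neg]
          intro h
          exact hb (hinj _ _ (h.trans hi0.symm))
        · simp
      rw [h1, h2]
      exact ⟨hd i0, rfl⟩
    · push Not at hl
      have h1 : e l = 0 := by
        rw [he]
        simp only
        exact Finset.sum_eq_zero fun i _ => by rw [if_neg (hl i)]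
      have h2 : (∏ i : Fin k, if (φ i : ℕ) = l then s (d i) else 1) = 1 :=
        Finset.prod_eq_one fun i _ => by rw [if_neg (hl i)]
      rw [h1, h2, h0]
      exact ⟨hB, rfl⟩
  have hsum : ∑ i, d i * B ^ (φ i : ℕ) = ∑ l ∈ range L, e l * B ^ l := by
    rw [he]
    simp only [Finset.sum_mul]
    rw [Finset.sum_comm]
    refine Finset.sum_congr rfl fun i _ => ?_
    rw [Finset.sum_eq_single (φ i : ℕ)]
    · simp
    · intro b _ hb
      rw [if_neg (fun h => hb h.symm), zero_mul]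
    · intro h
      exact absurd (Finset.mem_range.mpr (φ i).isLt) h
  unfold lam
  rw [hsum]
  have h3 : ∀ l ∈ range L, s ((∑ l ∈ range L, e l * B ^ l) / B ^ l % B)
      = ∏ i : Fin k, if (φ i : ℕ) = l then s (d i) else 1 := by
    intro l hl
    rw [digit_extract hB L e (fun l => (key l).1) l (Finset.mem_range.mp hl)]
    exact (key l).2
  rw [Finset.prod_congr rfl h3, Finset.prod_comm]
  refine Finset.prod_congr rfl fun i _ => ?_
  rw [Finset.prod_eq_single (φ i : ℕ)]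
  · simp
  · intro b _ hb
    rw [if_neg (fun h => hb h.symm)]
  · intro h
    exact absurd (Finset.mem_range.mpr (φ i).isLt) h

/-- Linear functional on polynomials with prescribed values on monomials. -/
noncomputable def Lam (t : ℕ → ℂ) : ℂ[X] →ₗ[ℂ] ℂ :=
  Polynomial.lsum fun n => LinearMap.toSpanSingleton ℂ ℂ (t n)

lemma Lam_monomial (t : ℕ → ℂ) (c : ℂ) (n : ℕ) : Lam t (C c * X ^ n) = c * t n := by
  rw [Polynomial.C_mul_X_pow_eq_monomial]
  unfold Lam
  rw [Polynomial.lsum_apply, Polynomial.sum_monomial_index]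
  · simp
  · simp

lemma Lam_le {t : ℕ → ℂ} (ht : ∀ n, ‖t n‖ ≤ 1) (p : ℂ[X]) :
    ‖Lam t p‖ₑ ≤ pn (p : PowerSeries ℂ) := by
  unfold Lam pn
  rw [Polynomial.lsum_apply, Polynomial.sum]
  refine (enorm_sum_le _ _).trans ?_
  refine le_trans (Finset.sum_le_sum fun n _ => ?_) (ENNReal.sum_le_tsum p.support)
  simp only [LinearMap.toSpanSingleton_apply, smul_eq_mul, enorm_mul, Polynomial.coeff_coe]
  have : ‖t n‖ₑ ≤ 1 := by
    rw [← ofReal_norm]
    exact ENNReal.ofReal_le_one.mpr (ht n)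
  calc _ ≤ ‖p.coeff n‖ₑ * 1 := mul_le_mul' le_rfl this
    _ = _ := mul_one _

/-- The polynomial `∑ d < B, w d X ^ (d * B ^ l)`. -/
noncomputable def UU (B : ℕ) (w : ℕ → ℂ) (l : ℕ) : ℂ[X] :=
  ∑ d ∈ range B, C (w d) * X ^ (d * B ^ l)

lemma UU_eval (B : ℕ) (w : ℕ → ℂ) (l : ℕ) (z : ℂ) :
    (UU B w l).eval z = ∑ d ∈ range B, w d * (z ^ (B ^ l)) ^ d := by
  unfold UU
  rw [Polynomial.eval_finsetSum]
  refine Finset.sum_congr rfl fun d _ => ?_
  rw [Polynomial.eval_mul, Polynomial.eval_C, Polynomial.eval_pow, Polynomial.eval_X, ← pow_mul,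
    mul_comm (B ^ l)]

lemma coe_sum' {ι : Type*} (s : Finset ι) (p : ι → ℂ[X]) :
    ((∑ i ∈ s, p i : ℂ[X]) : PowerSeries ℂ) = ∑ i ∈ s, (p i : PowerSeries ℂ) := by
  ext n
  simp

lemma coe_prod' {ι : Type*} (s : Finset ι) (p : ι → ℂ[X]) :
    ((∏ i ∈ s, p i : ℂ[X]) : PowerSeries ℂ) = ∏ i ∈ s, (p i : PowerSeries ℂ) := by
  classical
  induction s using Finset.induction_on with
  | empty => simp
  | insert a s ha ih => rw [Finset.prod_insert ha, Finset.prod_insert ha, Polynomial.coe_mul, ih]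

lemma pn_UU {B : ℕ} {w : ℕ → ℂ} (hw : ∑ d ∈ range B, ‖w d‖ ≤ 1) (l : ℕ) :
    pn (UU B w l : PowerSeries ℂ) ≤ 1 := by
  have h1 : (UU B w l : PowerSeries ℂ)
      = ∑ d ∈ range B, ((C (w d) * X ^ (d * B ^ l) : ℂ[X]) : PowerSeries ℂ) := by
    unfold UU
    exact coe_sum' _ _
  rw [h1]
  refine (pn_sum_le _ _).trans ?_
  have h2 : ∀ d ∈ range B, pn ((C (w d) * X ^ (d * B ^ l) : ℂ[X]) : PowerSeries ℂ)
      ≤ ENNReal.ofReal ‖w d‖ := by
    intro d _
    unfold pn
    rw [tsum_eq_single (d * B ^ l)]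
    · simp
    · intro n hn
      simp [hn]
  refine (Finset.sum_le_sum h2).trans ?_
  rw [← ENNReal.ofReal_sum_of_nonneg (fun _ _ => norm_nonneg _)]
  exact ENNReal.ofReal_le_one.mpr hw

lemma Lam_prod_inj {B L k : ℕ} (hB : 0 < B) {s : ℕ → ℂ} (h0 : s 0 = 1) (w : ℕ → ℂ)
    (φ : Fin k → Fin L) (hφ : Function.Injective φ) :
    Lam (lam B L s) (∏ i, UU B w (φ i)) = (∑ d ∈ range B, w d * s d) ^ k := by
  classical
  have h1 : (∏ i, UU B w (φ i)) = ∑ d ∈ Fintype.piFinset (fun _ : Fin k => range B),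
      C (∏ i, w (d i)) * X ^ (∑ i, d i * B ^ (φ i : ℕ)) := by
    unfold UU
    rw [Finset.prod_univ_sum]
    refine Finset.sum_congr rfl fun d _ => ?_
    rw [Finset.prod_mul_distrib, Finset.prod_pow_eq_pow_sum, map_prod]
  rw [h1, map_sum]
  have h2 : ∀ d ∈ Fintype.piFinset (fun _ : Fin k => range B),
      Lam (lam B L s) (C (∏ i, w (d i)) * X ^ (∑ i, d i * B ^ (φ i : ℕ)))
        = ∏ i, (w (d i) * s (d i)) := by
    intro d hd
    rw [Fintype.mem_piFinset] at hd
    rw [Lam_monomial, lam_digits hB h0 φ hφ d (fun i => Finset.mem_range.mp (hd i)),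
      Finset.prod_mul_distrib]
  rw [Finset.sum_congr rfl h2]
  have h3 := Finset.prod_univ_sum (fun _ : Fin k => range B) (fun (_ : Fin k) d => w d * s d)
  rw [← h3]
  simp

/-- The averaged polynomial. -/
noncomputable def gg (B L : ℕ) (w : ℕ → ℂ) : ℂ[X] :=
  C ((L : ℂ)⁻¹) * ∑ l : Fin L, UU B w l

lemma gg_eval_le {B L : ℕ} (hL : 0 < L) {w : ℕ → ℂ} {ε : ℝ}
    (hw : ∀ z : ℂ, ‖z‖ ≤ 1 → ‖∑ d ∈ range B, w d * z ^ d‖ ≤ ε) {z : ℂ} (hz : ‖z‖ ≤ 1) :
    ‖(gg B L w).eval z‖ ≤ ε := by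
  unfold gg
  rw [Polynomial.eval_mul, Polynomial.eval_C, Polynomial.eval_finsetSum, norm_mul, norm_inv,
    Complex.norm_natCast]
  have hL' : (0 : ℝ) < L := by exact_mod_cast hL
  rw [inv_mul_le_iff₀ hL']
  refine (norm_sum_le _ _).trans ?_
  have : ∀ l ∈ (Finset.univ : Finset (Fin L)), ‖(UU B w l).eval z‖ ≤ ε := by
    intro l _
    rw [UU_eval]
    apply hw
    rw [norm_pow]
    exact pow_le_one₀ (norm_nonneg _) hz
  refine (Finset.sum_le_sum this).trans ?_
  simp

lemma pn_gg {B L : ℕ} (hL : 0 < L) {w : ℕ → ℂ} (hw : ∑ d ∈ range B, ‖w d‖ ≤ 1) :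
    pn (gg B L w : PowerSeries ℂ) ≤ 1 := by
  unfold gg
  rw [Polynomial.coe_mul, Polynomial.coe_C, pn_C_mul]
  have h1 : ((∑ l : Fin L, UU B w l : ℂ[X]) : PowerSeries ℂ)
      = ∑ l : Fin L, (UU B w l : PowerSeries ℂ) := coe_sum' _ _
  rw [h1]
  have h2 : pn (∑ l : Fin L, (UU B w l : PowerSeries ℂ)) ≤ L := by
    refine (pn_sum_le _ _).trans ?_
    refine (Finset.sum_le_sum (g := fun _ => 1) fun (l : Fin L) _ => pn_UU hw (l : ℕ)).trans ?_
    simp
  refine (mul_le_mul' le_rfl h2).trans ?_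
  have hL' : (0 : ℝ) < L := by exact_mod_cast hL
  rw [← ofReal_norm, norm_inv, Complex.norm_natCast, ← ENNReal.ofReal_natCast,
    ← ENNReal.ofReal_mul (by positivity), inv_mul_cancel₀ hL'.ne']
  simp

/-- Proportion of injective maps. -/
noncomputable def qq (L k : ℕ) : ℝ := (L.descFactorial k : ℝ) / (L : ℝ) ^ k

lemma Lam_gg_pow {B L : ℕ} (hB : 0 < B) (hL : 0 < L) {s w : ℕ → ℂ} (h0 : s 0 = 1)
    (hs : ∀ d, ‖s d‖ ≤ 1) (hw : ∑ d ∈ range B, ‖w d‖ ≤ 1) {c : ℂ} (hc : ‖c‖ = 1)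
    (hsw : ∑ d ∈ range B, w d * s d = c) (k : ℕ) :
    ‖Lam (lam B L s) (gg B L w ^ k) - c ^ k‖ ≤ 2 * (1 - qq L k) := by
  classical
  have hL' : (0 : ℝ) < L := by exact_mod_cast hL
  have hLc : (L : ℂ) ≠ 0 := by exact_mod_cast hL.ne'
  have h1 : gg B L w ^ k = C (((L : ℂ)⁻¹) ^ k) * ∑ φ : Fin k → Fin L, ∏ i, UU B w (φ i) := by
    unfold gg
    rw [mul_pow, ← C_pow, Fintype.sum_pow]
  have h2 : Lam (lam B L s) (gg B L w ^ k)
      = ((L : ℂ)⁻¹) ^ k * ∑ φ : Fin k → Fin L, Lam (lam B L s) (∏ i, UU B w (φ i)) := by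
    rw [h1, Polynomial.C_mul', map_smul, map_sum, smul_eq_mul]
  have h3 : c ^ k = ((L : ℂ)⁻¹) ^ k * ∑ φ : Fin k → Fin L, c ^ k := by
    rw [Finset.sum_const, Finset.card_univ, Fintype.card_pi]
    simp only [Fintype.card_fin, Finset.prod_const, Finset.card_univ, nsmul_eq_mul]
    push_cast
    rw [inv_pow, ← mul_assoc, inv_mul_cancel₀ (pow_ne_zero _ hLc), one_mul]
  have h3' : ‖Lam (lam B L s) (gg B L w ^ k) - c ^ k‖ =
      ‖((L : ℂ)⁻¹) ^ k * ∑ φ : Fin k → Fin L, Lam (lam B L s) (∏ i, UU B w (φ i))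
        - ((L : ℂ)⁻¹) ^ k * ∑ φ : Fin k → Fin L, c ^ k‖ := by
    rw [← h3, h2]
  rw [h3', ← mul_sub, ← Finset.sum_sub_distrib, norm_mul, norm_pow, norm_inv, Complex.norm_natCast]
  have h4 : ‖∑ φ : Fin k → Fin L, (Lam (lam B L s) (∏ i, UU B w (φ i)) - c ^ k)‖
      ≤ 2 * ((L : ℝ) ^ k - L.descFactorial k) := by
    refine (norm_sum_le _ _).trans ?_
    have h5 : ∀ φ ∈ (Finset.univ : Finset (Fin k → Fin L)),
        ‖Lam (lam B L s) (∏ i, UU B w (φ i)) - c ^ k‖
          ≤ if Function.Injective φ then 0 else 2 := by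
      intro φ _
      split_ifs with hφ
      · rw [Lam_prod_inj hB h0 w φ hφ, hsw, sub_self, norm_zero]
      · refine (norm_sub_le _ _).trans ?_
        have h6 : ‖Lam (lam B L s) (∏ i, UU B w (φ i))‖ ≤ 1 := by
          have h7 := Lam_le (lam_norm_le B L hs) (∏ i, UU B w (φ i))
          have h8 : ((∏ i, UU B w (φ i) : ℂ[X]) : PowerSeries ℂ)
              = ∏ i, (UU B w (φ i) : PowerSeries ℂ) := coe_prod' _ _
          rw [h8] at h7
          have h9 : ‖Lam (lam B L s) (∏ i, UU B w (φ i))‖ₑ ≤ 1 := by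
            refine h7.trans ((pn_prod_le _ _).trans ?_)
            exact Finset.prod_le_one' fun i _ => pn_UU hw _
          rw [← ofReal_norm] at h9
          exact ENNReal.ofReal_le_one.mp h9
        rw [norm_pow, hc, one_pow]
        linarith
    refine (Finset.sum_le_sum h5).trans ?_
    rw [Finset.sum_ite, Finset.sum_const_zero, zero_add, Finset.sum_const, nsmul_eq_mul]
    have h10 : (Finset.univ.filter fun φ : Fin k → Fin L => Function.Injective φ).card
        = L.descFactorial k := by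
      have e1 := Fintype.card_embedding_eq (α := Fin k) (β := Fin L)
      rw [Fintype.card_fin, Fintype.card_fin] at e1
      rw [← e1, ← Fintype.card_subtype]
      exact Fintype.card_congr (Equiv.subtypeInjectiveEquivEmbedding (Fin k) (Fin L))
    have h11 : (Finset.univ.filter fun φ : Fin k → Fin L => Function.Injective φ).card
        + (Finset.univ.filter fun φ : Fin k → Fin L => ¬ Function.Injective φ).card
          = L ^ k := by
      rw [Finset.card_filter_add_card_filter_not]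
      simp [Finset.card_univ]
    rw [h10] at h11
    have h12 : ((Finset.univ.filter fun φ : Fin k → Fin L => ¬ Function.Injective φ).card : ℝ)
        = (L : ℝ) ^ k - L.descFactorial k := by
      have : ((L.descFactorial k : ℕ) : ℝ) + ((Finset.univ.filter fun φ : Fin k → Fin L =>
        ¬ Function.Injective φ).card : ℝ) = (L : ℝ) ^ k := by exact_mod_cast h11
      linarith
    rw [h12]
    linarith
  calc (L : ℝ)⁻¹ ^ k * _ ≤ (L : ℝ)⁻¹ ^ k * (2 * ((L : ℝ) ^ k - L.descFactorial k)) :=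
        mul_le_mul_of_nonneg_left h4 (by positivity)
    _ = 2 * (1 - qq L k) := by
        unfold qq
        rw [inv_pow]
        field_simp

end Pool.Agent.Y283
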