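import Pool.Agent.Y283.PS

/-!
Flat polynomials (Rudin-Shapiro) and digit functionals.
-/

namespace Pool.Agent.Y283

open Finset Polynomial

/-- Rudin-Shapiro polynomials. -/
noncomputable def rs : ℕ → ℂ[X] × ℂ[X]
  | 0 => (1, 1)
  | (m + 1) => ((rs m).1 + X ^ (2 ^ m) * (rs m).2, (rs m).1 - X ^ (2 ^ m) * (rs m).2)

lemma rs_coeff_zero (m : ℕ) :
    ∀ i, 2 ^ m ≤ i → (rs m).1.coeff i = 0 ∧ (rs m).2.coeff i = 0 := by
  induction m with
  | zero =>
    intro i hi
    have : i ≠ 0 := by simp at hi; omega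
    simp [rs, Polynomial.coeff_one, this]
  | succ m ih =>
    intro i hi
    have h1 : 2 ^ m ≤ i := le_trans (Nat.pow_le_pow_right (by norm_num) (Nat.le_succ m)) hi
    have h2 : 2 ^ m ≤ i - 2 ^ m := by
      rw [pow_succ] at hi; omega
    have e1 := ih i h1
    have e2 := ih (i - 2 ^ m) h2
    simp only [rs, Polynomial.coeff_add, Polynomial.coeff_sub, Polynomial.coeff_X_pow_mul', h1,
      if_true, e1.1, e2.2]
    simp

lemma rs_coeff_sq (m : ℕ) :
    ∀ i, i < 2 ^ m → (rs m).1.coeff i ^ 2 = 1 ∧ (rs m).2.coeff i ^ 2 = 1 := by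
  induction m with
  | zero =>
    intro i hi
    have : i = 0 := by simpa using hi
    subst this
    simp [rs]
  | succ m ih =>
    intro i hi
    simp only [rs, Polynomial.coeff_add, Polynomial.coeff_sub, Polynomial.coeff_X_pow_mul']
    rcases lt_or_ge i (2 ^ m) with h | h
    · rw [if_neg (by omega)]
      simpa using (ih i h).1
    · rw [if_pos h, (rs_coeff_zero m i h).1]
      have h2 : i - 2 ^ m < 2 ^ m := by rw [pow_succ] at hi; omega
      simpa using (ih _ h2).2

lemma rs_norm (m : ℕ) (z : ℂ) (hz : ‖z‖ ≤ 1) :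
    ‖(rs m).1.eval z‖ ^ 2 + ‖(rs m).2.eval z‖ ^ 2 ≤ 2 ^ (m + 1) := by
  induction m with
  | zero => simp [rs]; norm_num
  | succ m ih =>
    simp only [rs, Polynomial.eval_add, Polynomial.eval_sub, Polynomial.eval_mul,
      Polynomial.eval_pow, Polynomial.eval_X]
    set a := (rs m).1.eval z
    set b := (rs m).2.eval z
    have hp := parallelogram_law_with_norm ℝ a (z ^ 2 ^ m * b)
    have hb : ‖z ^ 2 ^ m * b‖ ≤ ‖b‖ := by
      rw [norm_mul, norm_pow]
      exact mul_le_of_le_one_left (norm_nonneg _) (pow_le_one₀ (norm_nonneg _) hz)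
    have hb2 : ‖z ^ 2 ^ m * b‖ * ‖z ^ 2 ^ m * b‖ ≤ ‖b‖ ^ 2 := by
      rw [sq]; exact mul_le_mul hb hb (norm_nonneg _) (norm_nonneg _)
    rw [pow_succ 2 (m + 1)]
    nlinarith

/-- Flat coefficient vectors with a norming functional equal to any prescribed unimodular
number. -/
lemma exists_flat {ε : ℝ} (hε : 0 < ε) : ∃ (B : ℕ) (w : ℕ → ℂ), 0 < B ∧
    (∑ d ∈ range B, ‖w d‖ ≤ 1) ∧
    (∀ z : ℂ, ‖z‖ ≤ 1 → ‖∑ d ∈ range B, w d * z ^ d‖ ≤ ε) ∧
    (∀ c : ℂ, ‖c‖ = 1 → ∃ s : ℕ → ℂ, s 0 = 1 ∧ (∀ d, ‖s d‖ ≤ 1) ∧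
      ∑ d ∈ range B, w d * s d = c) := by
  obtain ⟨m, hm⟩ : ∃ m : ℕ, 2 * (1 / 2 : ℝ) ^ m ≤ ε ^ 2 := by
    have h0 : 0 < ε ^ 2 / 2 := by positivity
    obtain ⟨m, hm⟩ := exists_pow_lt_of_lt_one h0 (show (1 / 2 : ℝ) < 1 by norm_num)
    exact ⟨m, by linarith⟩
  set P := (rs m).1 with hP
  have hcn : ∀ i, i < 2 ^ m → ‖P.coeff i‖ = 1 := by
    intro i hi
    have h := (rs_coeff_sq m i hi).1
    have h2 : ‖P.coeff i‖ ^ 2 = 1 := by rw [← norm_pow, h, norm_one]
    nlinarith [norm_nonneg (P.coeff i)]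
  have hpos : (0 : ℝ) < 2 ^ m := by positivity
  have hne : ((2 : ℂ) ^ m) ≠ 0 := pow_ne_zero _ two_ne_zero
  refine ⟨2 ^ m + 1, fun d => match d with
    | 0 => 0
    | (d + 1) => P.coeff d / 2 ^ m, by positivity, ?_, ?_, ?_⟩
  · rw [Finset.sum_range_succ']
    simp only [norm_zero, add_zero, norm_div, norm_pow, Complex.norm_ofNat]
    rw [Finset.sum_congr rfl (fun i hi => by
      rw [hcn i (Finset.mem_range.mp hi)])]
    simp
  · intro z hz
    rw [Finset.sum_range_succ']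
    simp only [zero_mul, add_zero]
    have e1 : ∑ i ∈ range (2 ^ m), P.coeff i / 2 ^ m * z ^ (i + 1) = z * P.eval z / 2 ^ m := by
      have hd : P.natDegree < 2 ^ m := by
        by_contra hcon
        push Not at hcon
        have h1 := (rs_coeff_zero m P.natDegree hcon).1
        have h2 : P = 0 := by
          rw [← Polynomial.leadingCoeff_eq_zero]; exact h1
        have h3 := hcn 0 (by positivity)
        rw [h2] at h3
        simp at h3
      rw [Polynomial.eval_eq_sum_range' hd, Finset.mul_sum, Finset.sum_div]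
      refine Finset.sum_congr rfl fun i _ => ?_
      ring
    rw [e1]
    have h1 := rs_norm m z hz
    have h2 : ‖P.eval z‖ ^ 2 ≤ 2 ^ (m + 1) := by
      have := sq_nonneg ‖(rs m).2.eval z‖
      linarith
    have h3 : ‖z * P.eval z / 2 ^ m‖ ^ 2 ≤ ε ^ 2 := by
      rw [norm_div, norm_mul, norm_pow, Complex.norm_ofNat, div_pow, mul_pow]
      rw [div_le_iff₀ (by positivity)]
      have hz2 : ‖z‖ ^ 2 ≤ 1 := pow_le_one₀ (norm_nonneg _) hz
      have h4 : ‖z‖ ^ 2 * ‖P.eval z‖ ^ 2 ≤ 2 ^ (m + 1) := by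
        have := mul_le_mul hz2 h2 (by positivity) (by norm_num)
        linarith
      have h5 : (2 : ℝ) ^ (m + 1) ≤ ε ^ 2 * (2 ^ m) ^ 2 := by
        have := mul_le_mul_of_nonneg_right hm (show (0 : ℝ) ≤ (2 ^ m) ^ 2 by positivity)
        have h6 : 2 * (1 / 2 : ℝ) ^ m * (2 ^ m) ^ 2 = 2 ^ (m + 1) := by
          rw [one_div, inv_pow]; field_simp; ring
        rw [h6] at this
        exact this
      exact h4.trans h5
    exact (sq_le_sq₀ (norm_nonneg _) hε.le).mp h3
  · intro c hc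
    refine ⟨fun d => match d with
      | 0 => 1
      | (d + 1) => c * P.coeff d, rfl, ?_, ?_⟩
    · intro d
      match d with
      | 0 => simp
      | (d + 1) =>
        simp only [norm_mul, hc, one_mul]
        rcases lt_or_ge d (2 ^ m) with h | h
        · rw [hcn d h]
        · rw [hP, (rs_coeff_zero m d h).1]; simp
    · rw [Finset.sum_range_succ']
      simp only [zero_mul, add_zero]
      have e1 : ∀ i ∈ range (2 ^ m), P.coeff i / 2 ^ m * (c * P.coeff i) = c / 2 ^ m := by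
        intro i hi
        have h := (rs_coeff_sq m i (Finset.mem_range.mp hi)).1
        rw [← hP] at h
        calc P.coeff i / 2 ^ m * (c * P.coeff i) = P.coeff i ^ 2 * c / 2 ^ m := by ring
          _ = _ := by rw [h, one_mul]
      rw [Finset.sum_congr rfl e1]
      simp only [Finset.sum_const, Finset.card_range, nsmul_eq_mul]
      push_cast
      field_simp

end Pool.Agent.Y283
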