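import Pool.Agent.Y283.PSUp
import Pool.Agent.Y283.PSFlat
import Pool.Agent.Y283.PSDig

/-!
Sharp uniform bound for inverses in the Wiener algebra of the disc.
-/

namespace Pool.Agent.Y283

open Finset Polynomial Filter Topology

/-- Wiener norm of a function analytic at the origin. -/
noncomputable def wn (f : ℂ → ℂ) : ENNReal := ∑' n, ‖tc f n‖ₑ

/-- The class `F_δ`. -/
def FF (δ : ℝ) : Set (ℂ → ℂ) :=
  {f | DifferentiableOn ℂ f (Metric.ball 0 1) ∧ wn f = 1 ∧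
    ∀ z ∈ Metric.ball (0 : ℂ) 1, δ ≤ ‖f z‖}

/-- The best bound for inverses. -/
noncomputable def CC (δ : ℝ) : ENNReal := ⨆ f ∈ FF δ, wn fun z => (f z)⁻¹

lemma ts_inv {f : ℂ → ℂ} (hf : DifferentiableOn ℂ f (Metric.ball 0 1))
    (h0 : ∀ z ∈ Metric.ball (0 : ℂ) 1, f z ≠ 0) : ts f * ts (fun z => (f z)⁻¹) = 1 := by
  have hm := Metric.ball_mem_nhds (0 : ℂ) one_pos
  have h1 : AnalyticAt ℂ f 0 := hf.analyticAt hm
  have h2 : AnalyticAt ℂ (fun z => (f z)⁻¹) 0 :=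
    h1.inv (h0 0 (Metric.mem_ball_self one_pos))
  rw [← ts_mul h1 h2, ts_congr (g := fun z => (1 : ℂ[X]).eval z)
    (fun z hz => by rw [mul_inv_cancel₀ (h0 z hz)]; simp), ts_poly]
  simp

theorem CC_le {δ : ℝ} (hδ : 1 / 2 < δ) : CC δ ≤ ENNReal.ofReal (1 / (2 * δ - 1)) := by
  refine iSup₂_le fun f hf => ?_
  obtain ⟨h1, h2, h3⟩ := hf
  have h4 : ∀ z ∈ Metric.ball (0 : ℂ) 1, f z ≠ 0 := fun z hz h => by
    have := h3 z hz
    rw [h, norm_zero] at this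
    linarith
  have h5 := ts_inv h1 h4
  unfold wn at h2 ⊢
  rw [← pn_ts] at h2 ⊢
  refine pn_inv_le h5 h2 hδ ?_
  have h6 := h3 0 (Metric.mem_ball_self one_pos)
  simpa [ts, tc] using h6

theorem one_le_CC_one : 1 ≤ CC 1 := by
  have h1 : (fun _ : ℂ => (1 : ℂ)) ∈ FF 1 := by
    refine ⟨differentiableOn_const _, ?_, fun z _ => by simp⟩
    unfold wn
    rw [← pn_ts, ts_congr (g := fun z => (1 : ℂ[X]).eval z) (fun z _ => by simp), ts_poly]
    simpa using pn_one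
  have h2 : wn (fun z => ((fun _ : ℂ => (1 : ℂ)) z)⁻¹) = 1 := by
    unfold wn
    rw [← pn_ts, ts_congr (g := fun z => (1 : ℂ[X]).eval z) (fun z _ => by simp), ts_poly]
    simpa using pn_one
  rw [← h2]
  exact le_iSup₂ (f := fun (f : ℂ → ℂ) (_ : f ∈ FF 1) => wn fun z => (f z)⁻¹) _ h1

lemma qq_tendsto (k : ℕ) : Tendsto (fun L : ℕ => qq L k) atTop (𝓝 1) := by
  induction k with
  | zero =>
    refine tendsto_const_nhds.congr fun L => ?_
    simp [qq]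
  | succ k ih =>
    have h1 : Tendsto (fun L : ℕ => ((L : ℝ) - k) / L) atTop (𝓝 1) := by
      have h2 : Tendsto (fun L : ℕ => 1 - (k : ℝ) / L) atTop (𝓝 (1 - 0)) :=
        tendsto_const_nhds.sub (tendsto_const_div_atTop_nhds_zero_nat (k : ℝ))
      rw [sub_zero] at h2
      refine h2.congr' ?_
      filter_upwards [eventually_gt_atTop 0] with L hL
      have : (L : ℝ) ≠ 0 := by exact_mod_cast hL.ne'
      field_simp
    have h3 := h1.mul ih
    rw [mul_one] at h3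
    refine h3.congr' ?_
    filter_upwards [eventually_ge_atTop (k + 1)] with L hL
    unfold qq
    rw [Nat.descFactorial_succ, Nat.cast_mul, Nat.cast_sub (by omega), pow_succ]
    have : (L : ℝ) ≠ 0 := by
      have : 0 < L := by omega
      exact_mod_cast this.ne'
    field_simp

lemma lower_step {δ δ' : ℝ} (h0 : 0 < δ) (h1 : δ < δ') (h3 : δ' < 1)
    (hfin : CC δ ≠ ⊤) {B : ℕ} {w : ℕ → ℂ} (hB : 0 < B) (hw : ∑ d ∈ range B, ‖w d‖ ≤ 1)
    (hflat : ∀ z : ℂ, ‖z‖ ≤ 1 → ‖∑ d ∈ range B, w d * z ^ d‖ ≤ δ' - δ)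
    (hs : ∀ c : ℂ, ‖c‖ = 1 → ∃ s : ℕ → ℂ, s 0 = 1 ∧ (∀ d, ‖s d‖ ≤ 1) ∧
      ∑ d ∈ range B, w d * s d = c) {L : ℕ} (hL : 0 < L) (K : ℕ) :
    (1 / δ') * ∑ k ∈ range K, ((1 - δ') / δ') ^ k * (1 - 2 * (1 - qq L k))
      ≤ (CC δ).toReal * (1 + ((1 - δ') / δ') ^ K) := by
  have hδ' : 0 < δ' := h0.trans h1
  set r : ℝ := (1 - δ') / δ' with hr
  have hr0 : 0 ≤ r := div_nonneg (by linarith) hδ'.le
  set g : ℂ[X] := gg B L w with hg
  set p : ℂ[X] := C (δ' : ℂ) + C ((1 - δ' : ℝ) : ℂ) * g with hp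
  have hδc : (δ' : ℂ) ≠ 0 := by exact_mod_cast hδ'.ne'
  -- lower bound for the modulus
  have hmod : ∀ z ∈ Metric.ball (0 : ℂ) 1, δ ≤ ‖p.eval z‖ := by
    intro z hz
    have hz' : ‖z‖ ≤ 1 := by simpa using (Metric.mem_ball.mp hz).le
    have e1 := gg_eval_le hL hflat hz'
    rw [hp, Polynomial.eval_add, Polynomial.eval_mul, Polynomial.eval_C, Polynomial.eval_C]
    have e2 : ‖((1 - δ' : ℝ) : ℂ) * g.eval z‖ ≤ δ' - δ := by
      rw [norm_mul, Complex.norm_real, Real.norm_eq_abs, abs_of_nonneg (by linarith)]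
      calc (1 - δ') * ‖g.eval z‖ ≤ 1 * ‖g.eval z‖ :=
            mul_le_mul_of_nonneg_right (by linarith) (norm_nonneg _)
        _ ≤ _ := by rw [one_mul]; exact e1
    have e3 : ‖(δ' : ℂ)‖ = δ' := by
      rw [Complex.norm_real, Real.norm_eq_abs, abs_of_pos hδ']
    have e4 := norm_sub_le_norm_add (δ' : ℂ) (((1 - δ' : ℝ) : ℂ) * g.eval z)
    linarith
  -- the norm
  have hpg : pn (g : PowerSeries ℂ) ≤ 1 := pn_gg hL hw
  have hcoe : (p : PowerSeries ℂ) = PowerSeries.C (δ' : ℂ)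
      + PowerSeries.C ((1 - δ' : ℝ) : ℂ) * (g : PowerSeries ℂ) := by
    rw [hp, Polynomial.coe_add, Polynomial.coe_mul, Polynomial.coe_C, Polynomial.coe_C]
  have hup : pn (p : PowerSeries ℂ) ≤ 1 := by
    rw [hcoe]
    refine (pn_add_le _ _).trans ?_
    rw [pn_C, pn_C_mul]
    have e1 : ‖(δ' : ℂ)‖ₑ = ENNReal.ofReal δ' := by
      rw [← ofReal_norm, Complex.norm_real, Real.norm_eq_abs, abs_of_pos hδ']
    have e2 : ‖((1 - δ' : ℝ) : ℂ)‖ₑ = ENNReal.ofReal (1 - δ') := by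
      rw [← ofReal_norm, Complex.norm_real, Real.norm_eq_abs, abs_of_nonneg (by linarith)]
    rw [e1, e2]
    calc _ ≤ ENNReal.ofReal δ' + ENNReal.ofReal (1 - δ') * 1 :=
          add_le_add le_rfl (mul_le_mul' le_rfl hpg)
      _ = 1 := by
        rw [mul_one, ← ENNReal.ofReal_add hδ'.le (by linarith)]
        simp
  have hlo : 1 ≤ pn (p : PowerSeries ℂ) := by
    obtain ⟨s, s0, s1, s2⟩ := hs 1 (by simp)
    have e1 := Lam_gg_pow hB hL s0 s1 hw (c := 1) (by simp) s2 1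
    have e2 : qq L 1 = 1 := by
      have : (L : ℝ) ≠ 0 := by exact_mod_cast hL.ne'
      simp [qq, this]
    rw [e2, sub_self, mul_zero, pow_one, one_pow] at e1
    have e3 : Lam (lam B L s) g = 1 := by
      have := norm_le_zero_iff.mp e1
      rw [sub_eq_zero] at this
      exact this
    have e0 : Lam (lam B L s) (1 : ℂ[X]) = 1 := by
      have := Lam_gg_pow hB hL s0 s1 hw (c := 1) (by simp) s2 0
      have e5 : qq L 0 = 1 := by simp [qq]
      rw [e5, sub_self, mul_zero, pow_zero, pow_zero] at this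
      have := norm_le_zero_iff.mp this
      rw [sub_eq_zero] at this
      exact this
    have e4 : Lam (lam B L s) p = 1 := by
      have : p = (δ' : ℂ) • (1 : ℂ[X]) + ((1 - δ' : ℝ) : ℂ) • g := by
        rw [hp, Polynomial.smul_eq_C_mul, Polynomial.smul_eq_C_mul, mul_one]
      rw [this, map_add, map_smul, map_smul, e3, e0]
      simp
    have e6 := Lam_le (lam_norm_le B L s1) p
    rw [e4] at e6
    simpa using e6
  have hnorm : pn (p : PowerSeries ℂ) = 1 := le_antisymm hup hlo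
  -- membership
  have hmem : (fun z => p.eval z) ∈ FF δ := by
    refine ⟨p.differentiable.differentiableOn, ?_, hmod⟩
    unfold wn
    rw [← pn_ts, ts_poly, hnorm]
  have hne : ∀ z ∈ Metric.ball (0 : ℂ) 1, p.eval z ≠ 0 := fun z hz h => by
    have := hmod z hz
    rw [h, norm_zero] at this
    linarith
  have hinv := ts_inv (f := fun z => p.eval z) p.differentiable.differentiableOn hne
  rw [ts_poly] at hinv
  set b : PowerSeries ℂ := ts (fun z => (p.eval z)⁻¹) with hb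
  have hbC : pn b ≤ CC δ := by
    rw [hb, pn_ts]
    exact le_iSup₂ (f := fun (f : ℂ → ℂ) (_ : f ∈ FF δ) => wn fun z => (f z)⁻¹) _ hmem
  -- the Neumann sum
  set P : ℂ[X] := C ((δ' : ℂ)⁻¹) * ∑ k ∈ range K, (C (-(r : ℂ)) * g) ^ k with hP
  have hpf : p = C (δ' : ℂ) * (1 - C (-(r : ℂ)) * g) := by
    have e : (δ' : ℂ) * -(r : ℂ) = -((1 - δ' : ℝ) : ℂ) := by
      rw [hr]; push_cast; field_simp
    rw [hp, mul_sub, mul_one, ← mul_assoc, ← C_mul, e, C_neg, neg_mul, sub_neg_eq_add]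
  have hPp : P * p = 1 - (C (-(r : ℂ)) * g) ^ K := by
    have e1 := mul_neg_geom_sum (C (-(r : ℂ)) * g) K
    rw [hP, hpf, ← e1]
    have e2 : (C ((δ' : ℂ)⁻¹) : ℂ[X]) * C (δ' : ℂ) = 1 := by
      rw [← C_mul, inv_mul_cancel₀ hδc, C_1]
    calc _ = (C ((δ' : ℂ)⁻¹) * C (δ' : ℂ)) * ((1 - C (-(r : ℂ)) * g)
          * ∑ k ∈ range K, (C (-(r : ℂ)) * g) ^ k) := by ring
      _ = _ := by rw [e2, one_mul]
  have hPb : (P : PowerSeries ℂ) = b + (-((C (-(r : ℂ)) * g : ℂ[X]) : PowerSeries ℂ) ^ K) * b := by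
    have e1 : (P : PowerSeries ℂ) * (p : PowerSeries ℂ)
        = 1 - ((C (-(r : ℂ)) * g : ℂ[X]) : PowerSeries ℂ) ^ K := by
      rw [← Polynomial.coe_mul, hPp]
      simp
    calc (P : PowerSeries ℂ) = P * ((p : PowerSeries ℂ) * b) := by rw [hinv, mul_one]
      _ = (P * (p : PowerSeries ℂ)) * b := by ring
      _ = _ := by rw [e1]; ring
  have hPle : pn (P : PowerSeries ℂ) ≤ (1 + ENNReal.ofReal (r ^ K)) * CC δ := by
    rw [hPb, add_mul, one_mul]
    refine (pn_add_le _ _).trans (add_le_add hbC ?_)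
    refine (pn_mul_le _ _).trans (mul_le_mul' ?_ hbC)
    rw [pn_neg]
    refine (pn_pow_le _ _).trans ?_
    rw [Polynomial.coe_mul, Polynomial.coe_C, pn_C_mul, ENNReal.ofReal_pow hr0]
    have e1 : ‖(-(r : ℂ))‖ₑ = ENNReal.ofReal r := by
      rw [← ofReal_norm, norm_neg, Complex.norm_real, Real.norm_eq_abs, abs_of_nonneg hr0]
    rw [e1]
    refine pow_le_pow_left₀ (by positivity) ?_ K
    calc _ ≤ ENNReal.ofReal r * 1 := mul_le_mul' le_rfl hpg
      _ = _ := mul_one _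
  -- the functional
  obtain ⟨s, s0, s1, s2⟩ := hs (-1) (by simp)
  have hLamP : ‖Lam (lam B L s) P - (δ' : ℂ)⁻¹ * ∑ k ∈ range K, (r : ℂ) ^ k‖
      ≤ δ'⁻¹ * ∑ k ∈ range K, r ^ k * (2 * (1 - qq L k)) := by
    have e1 : Lam (lam B L s) P
        = (δ' : ℂ)⁻¹ * ∑ k ∈ range K, (-(r : ℂ)) ^ k * Lam (lam B L s) (g ^ k) := by
      rw [hP, Polynomial.C_mul', map_smul, map_sum, smul_eq_mul]
      congr 1
      refine Finset.sum_congr rfl fun k _ => ?_
      rw [mul_pow, ← C_pow, Polynomial.C_mul', map_smul, smul_eq_mul]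
    rw [e1, ← mul_sub, ← Finset.sum_sub_distrib, norm_mul, norm_inv, Complex.norm_real,
      Real.norm_eq_abs, abs_of_pos hδ']
    refine mul_le_mul_of_nonneg_left ?_ (by positivity)
    refine (norm_sum_le _ _).trans (Finset.sum_le_sum fun k _ => ?_)
    have e2 := Lam_gg_pow hB hL s0 s1 hw (c := -1) (by simp) s2 k
    have e3 : (-(r : ℂ)) ^ k * Lam (lam B L s) (g ^ k) - (r : ℂ) ^ k
        = (-(r : ℂ)) ^ k * (Lam (lam B L s) (g ^ k) - (-1) ^ k) := by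
      rw [mul_sub, ← mul_pow]
      simp
    rw [e3, norm_mul, norm_pow, norm_neg, Complex.norm_real, Real.norm_eq_abs,
      abs_of_nonneg hr0]
    exact mul_le_mul_of_nonneg_left e2 (by positivity)
  have hfinal : ‖Lam (lam B L s) P‖ ≤ (CC δ).toReal * (1 + r ^ K) := by
    have e1 := (Lam_le (lam_norm_le B L s1) P).trans hPle
    have e2 : (1 + ENNReal.ofReal (r ^ K)) * CC δ ≠ ⊤ :=
      ENNReal.mul_ne_top (ENNReal.add_ne_top.mpr ⟨ENNReal.one_ne_top, ENNReal.ofReal_ne_top⟩) hfin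
    have e3 := ENNReal.toReal_mono e2 e1
    rw [ENNReal.toReal_mul, ENNReal.toReal_add ENNReal.one_ne_top ENNReal.ofReal_ne_top,
      ENNReal.toReal_ofReal (by positivity), ENNReal.toReal_one, toReal_enorm] at e3
    linarith [mul_comm (CC δ).toReal (1 + r ^ K)]
  have h7 : ‖(δ' : ℂ)⁻¹ * ∑ k ∈ range K, (r : ℂ) ^ k‖ = δ'⁻¹ * ∑ k ∈ range K, r ^ k := by
    have : (δ' : ℂ)⁻¹ * ∑ k ∈ range K, (r : ℂ) ^ k = ((δ'⁻¹ * ∑ k ∈ range K, r ^ k : ℝ) : ℂ) := by
      push_cast; rfl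
    rw [this, Complex.norm_real, Real.norm_eq_abs, abs_of_nonneg]
    exact mul_nonneg (by positivity) (Finset.sum_nonneg fun k _ => pow_nonneg hr0 k)
  have h8 : ‖(δ' : ℂ)⁻¹ * ∑ k ∈ range K, (r : ℂ) ^ k‖ ≤ ‖Lam (lam B L s) P‖
      + ‖Lam (lam B L s) P - (δ' : ℂ)⁻¹ * ∑ k ∈ range K, (r : ℂ) ^ k‖ := by
    have := norm_sub_le (Lam (lam B L s) P)
      (Lam (lam B L s) P - (δ' : ℂ)⁻¹ * ∑ k ∈ range K, (r : ℂ) ^ k)
    rwa [sub_sub_cancel] at this
  rw [h7] at h8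
  have h9 : (1 / δ') * ∑ k ∈ range K, r ^ k * (1 - 2 * (1 - qq L k))
      = δ'⁻¹ * ∑ k ∈ range K, r ^ k - δ'⁻¹ * ∑ k ∈ range K, r ^ k * (2 * (1 - qq L k)) := by
    rw [one_div, ← mul_sub, ← Finset.sum_sub_distrib]
    congr 1
    refine Finset.sum_congr rfl fun k _ => ?_
    ring
  rw [h9]
  linarith

theorem le_CC {δ δ' : ℝ} (h0 : 0 < δ) (h1 : δ < δ') (h2 : 1 / 2 < δ') (h3 : δ' < 1) :
    ENNReal.ofReal (1 / (2 * δ' - 1)) ≤ CC δ := by
  by_cases hfin : CC δ = ⊤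
  · rw [hfin]; exact le_top
  obtain ⟨B, w, hB, hw, hflat, hs⟩ := exists_flat (ε := δ' - δ) (by linarith)
  have hδ' : 0 < δ' := h0.trans h1
  set r : ℝ := (1 - δ') / δ' with hr
  have hr0 : 0 ≤ r := div_nonneg (by linarith) hδ'.le
  have hr1 : r < 1 := by
    rw [hr, div_lt_one hδ']; linarith
  have step1 : ∀ K : ℕ, (1 / δ') * ∑ k ∈ range K, r ^ k ≤ (CC δ).toReal * (1 + r ^ K) := by
    intro K
    have e1 : Tendsto (fun L : ℕ => (1 / δ') * ∑ k ∈ range K, r ^ k * (1 - 2 * (1 - qq L k)))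
        atTop (𝓝 ((1 / δ') * ∑ k ∈ range K, r ^ k * (1 - 2 * (1 - 1)))) := by
      refine Tendsto.const_mul _ (tendsto_finsetSum _ fun k _ => Tendsto.const_mul _ ?_)
      exact tendsto_const_nhds.sub (Tendsto.const_mul _ (tendsto_const_nhds.sub (qq_tendsto k)))
    simp only [sub_self, mul_zero, sub_zero, mul_one] at e1
    refine le_of_tendsto e1 ?_
    filter_upwards [eventually_gt_atTop 0] with L hL
    exact lower_step h0 h1 h3 hfin hB hw hflat hs hL K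
  have t1 : Tendsto (fun K : ℕ => (1 / δ') * ∑ k ∈ range K, r ^ k) atTop
      (𝓝 ((1 / δ') * (1 - r)⁻¹)) :=
    Tendsto.const_mul _ (hasSum_geometric_of_lt_one hr0 hr1).tendsto_sum_nat
  have t2 : Tendsto (fun K : ℕ => (CC δ).toReal * (1 + r ^ K)) atTop
      (𝓝 ((CC δ).toReal * (1 + 0))) :=
    Tendsto.const_mul _ (tendsto_const_nhds.add (tendsto_pow_atTop_nhds_zero_of_lt_one hr0 hr1))
  have h4 := le_of_tendsto_of_tendsto' t1 t2 step1
  have h5 : (1 / δ') * (1 - r)⁻¹ = 1 / (2 * δ' - 1) := by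
    have e1 : 1 - r = (2 * δ' - 1) / δ' := by
      rw [hr]; field_simp; ring
    rw [e1, inv_div]
    field_simp
  rw [h5, add_zero, mul_one] at h4
  rw [← ENNReal.ofReal_toReal hfin]
  exact ENNReal.ofReal_le_ofReal h4

theorem CC_eq {δ : ℝ} (h1 : 1 / 2 < δ) (h2 : δ ≤ 1) :
    CC δ = ENNReal.ofReal (1 / (2 * δ - 1)) := by
  refine le_antisymm (CC_le h1) ?_
  rcases h2.lt_or_eq with h2 | h2
  · -- let `δ'` decrease to `δ`
    have t : Tendsto (fun x : ℝ => ENNReal.ofReal (1 / (2 * x - 1))) (𝓝[>] δ)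
        (𝓝 (ENNReal.ofReal (1 / (2 * δ - 1)))) := by
      refine tendsto_nhdsWithin_of_tendsto_nhds ?_
      refine (ENNReal.continuous_ofReal.tendsto _).comp ?_
      refine Tendsto.div tendsto_const_nhds ?_ (by linarith)
      exact ((continuous_const.mul continuous_id).sub continuous_const).tendsto _
    refine le_of_tendsto t ?_
    filter_upwards [Ioo_mem_nhdsGT h2] with x hx
    exact le_CC (by linarith) hx.1 (h1.trans hx.1) hx.2
  · subst h2
    have := one_le_CC_one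
    norm_num
    exact this

theorem CC_top {δ : ℝ} (h1 : 0 < δ) (h2 : δ ≤ 1 / 2) : CC δ = ⊤ := by
  by_contra hfin
  set x := (CC δ).toReal with hx
  have hx0 : 0 ≤ x := ENNReal.toReal_nonneg
  -- choose `δ' = 1/2 + small`
  set t : ℝ := 1 / (4 * (x + 1)) with ht
  have ht0 : 0 < t := by positivity
  have ht1 : t ≤ 1 / 4 := by
    rw [ht, div_le_div_iff₀ (by positivity) (by norm_num)]
    linarith
  have h3 := le_CC (δ' := 1 / 2 + t) h1 (by linarith) (by linarith) (by linarith)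
  rw [ENNReal.ofReal_le_iff_le_toReal hfin] at h3
  have h4 : 1 / (2 * (1 / 2 + t) - 1) = 2 * (x + 1) := by
    rw [ht]; field_simp; ring
  rw [h4] at h3
  linarith

theorem delta_eq : sInf {δ : ℝ | 0 < δ ∧ δ ≤ 1 ∧ CC δ < ⊤} = 1 / 2 := by
  have h : {δ : ℝ | 0 < δ ∧ δ ≤ 1 ∧ CC δ < ⊤} = Set.Ioc (1 / 2) 1 := by
    ext δ
    constructor
    · rintro ⟨a, b, c⟩
      refine ⟨?_, b⟩
      by_contra h
      push Not at h
      rw [CC_top a h] at c
      exact lt_irrefl _ c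
    · rintro ⟨a, b⟩
      refine ⟨by linarith, b, ?_⟩
      rw [CC_eq a b]
      exact ENNReal.ofReal_lt_top
  rw [h]
  exact csInf_Ioc (by norm_num)

theorem disc_result :
    (∀ δ : ℝ, 1 / 2 < δ → δ ≤ 1 → CC δ = ENNReal.ofReal (1 / (2 * δ - 1))) ∧
    (∀ δ : ℝ, 0 < δ → δ ≤ 1 / 2 → CC δ = ⊤) ∧
    sInf {δ : ℝ | 0 < δ ∧ δ ≤ 1 ∧ CC δ < ⊤} = 1 / 2 :=
  ⟨fun _ h1 h2 => CC_eq h1 h2, fun _ h1 h2 => CC_top h1 h2, delta_eq⟩

end Pool.Agent.Y283
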