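import Pool.Agent.Y283.PS

/-!
Upper bound for the inverse in the algebra of absolutely convergent power series.
-/

namespace Pool.Agent.Y283

open Finset

/-- Truncated series. -/
noncomputable def trn (N : ℕ) (φ : PowerSeries ℂ) : PowerSeries ℂ :=
  PowerSeries.mk fun n => if n < N then PowerSeries.coeff n φ else 0

lemma pn_trn_le (N : ℕ) (φ : PowerSeries ℂ) : pn (trn N φ) ≤ pn φ := by
  unfold pn trn
  refine ENNReal.tsum_le_tsum fun n => ?_
  rw [PowerSeries.coeff_mk]
  split_ifs
  · exact le_rfl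
  · simp

lemma pn_trn (N : ℕ) (φ : PowerSeries ℂ) :
    pn (trn N φ) = ∑ n ∈ range N, ‖PowerSeries.coeff n φ‖ₑ := by
  unfold pn trn
  rw [tsum_eq_sum (s := range N)]
  · refine Finset.sum_congr rfl fun n hn => ?_
    rw [PowerSeries.coeff_mk, if_pos (Finset.mem_range.mp hn)]
  · intro n hn
    rw [PowerSeries.coeff_mk, if_neg (fun h => hn (Finset.mem_range.mpr h))]
    simp

lemma pn_neg (φ : PowerSeries ℂ) : pn (-φ) = pn φ := by
  unfold pn
  simp

lemma pn_split (φ : PowerSeries ℂ) :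
    pn φ = ‖PowerSeries.coeff 0 φ‖ₑ + pn (φ - PowerSeries.C (PowerSeries.coeff 0 φ)) := by
  unfold pn
  rw [ENNReal.tsum_eq_add_tsum_ite 0]
  congr 1
  refine tsum_congr fun n => ?_
  rw [map_sub, PowerSeries.coeff_C]
  split_ifs with h
  · subst h; simp
  · simp

theorem pn_inv_le {φ b : PowerSeries ℂ} (h : φ * b = 1) (h1 : pn φ = 1) {δ : ℝ}
    (hδ : 1 / 2 < δ) (h0 : δ ≤ ‖PowerSeries.coeff 0 φ‖) :
    pn b ≤ ENNReal.ofReal (1 / (2 * δ - 1)) := by
  set a : ℂ := PowerSeries.coeff 0 φ with ha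
  set ψ : PowerSeries ℂ := φ - PowerSeries.C a with hψ
  have hsplit : ‖a‖ₑ + pn ψ = 1 := by rw [← h1, pn_split φ]
  have hψfin : pn ψ ≠ ⊤ := by
    intro ht
    rw [ht] at hsplit
    simp at hsplit
  have hreal : ‖a‖ + (pn ψ).toReal = 1 := by
    have := congrArg ENNReal.toReal hsplit
    rw [ENNReal.toReal_add (by simp) hψfin] at this
    simpa using this
  have key : ∀ N : ℕ, pn (trn N b) ≤ ENNReal.ofReal (1 / (2 * δ - 1)) := by
    intro N
    have hfin : pn (trn N b) ≠ ⊤ := by
      rw [pn_trn]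
      exact (ENNReal.sum_lt_top.mpr fun n _ => by simp).ne
    have e1 : PowerSeries.C a * trn N b = trn N (1 - ψ * trn N b) := by
      ext n
      rw [PowerSeries.coeff_C_mul]
      conv_rhs => rw [trn, PowerSeries.coeff_mk]
      split_ifs with hn
      · have e2 : PowerSeries.coeff n (φ * trn N b) = PowerSeries.coeff n (φ * b) := by
          rw [PowerSeries.coeff_mul, PowerSeries.coeff_mul]
          refine Finset.sum_congr rfl fun p hp => ?_
          rw [Finset.HasAntidiagonal.mem_antidiagonal] at hp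
          rw [trn, PowerSeries.coeff_mk, if_pos (by omega)]
        rw [h] at e2
        rw [hψ, sub_mul, map_sub, map_sub, e2, PowerSeries.coeff_C_mul]
        ring
      · rw [trn, PowerSeries.coeff_mk, if_neg hn, mul_zero]
    have e2 : ‖a‖ₑ * pn (trn N b) ≤ 1 + pn ψ * pn (trn N b) := by
      rw [← pn_C_mul, e1]
      refine (pn_trn_le _ _).trans ?_
      rw [sub_eq_add_neg]
      refine (pn_add_le _ _).trans ?_
      rw [pn_one, pn_neg]
      exact add_le_add le_rfl (pn_mul_le _ _)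
    have e3 : ‖a‖ * (pn (trn N b)).toReal ≤ 1 + (pn ψ).toReal * (pn (trn N b)).toReal := by
      have := ENNReal.toReal_mono
        (ENNReal.add_ne_top.mpr ⟨ENNReal.one_ne_top, ENNReal.mul_ne_top hψfin hfin⟩) e2
      rw [ENNReal.toReal_mul, ENNReal.toReal_add ENNReal.one_ne_top
        (ENNReal.mul_ne_top hψfin hfin), ENNReal.toReal_mul] at this
      simpa using this
    rw [← ENNReal.ofReal_toReal hfin]
    apply ENNReal.ofReal_le_ofReal
    have hx : 0 ≤ (pn (trn N b)).toReal := ENNReal.toReal_nonneg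
    set x := (pn (trn N b)).toReal
    have hy : (pn ψ).toReal = 1 - ‖a‖ := by linarith
    rw [hy] at e3
    rw [le_div_iff₀ (by linarith)]
    nlinarith
  have h2 : pn b = ⨆ N : ℕ, ∑ n ∈ range N, ‖PowerSeries.coeff n b‖ₑ := by
    unfold pn
    exact ENNReal.tsum_eq_iSup_nat
  rw [h2]
  refine iSup_le fun N => ?_
  rw [← pn_trn]
  exact key N

end Pool.Agent.Y283
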